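import Pool.Agent.Y994.KW.Stm2
import Pool.Agent.Y932.KW.Walk

/-!
# Project KW, part two: crossings and the interface (S_CRS), helper256 for helper994
-/

set_option autoImplicit false

namespace Pool.Agent.Y256.KW

open Y994.KW Pool.Agent.Y932.KW

/-! ## connections -/

section con

variable {n M : ℕ} {c : Fin M → Fin (2 * n + 1) → Bool}

theorem jx_add (n : ℕ) (j : ℤ) (z : ℤ) : H906K.jx (2 * n) (j + (2 * n + 1) * z) = H906K.jx (2 * n) j := by
  unfold H906K.jx
  have h : (j + (2 * n + 1) * z) % (((2 * n : ℕ) : ℤ) + 1) = j % (((2 * n : ℕ) : ℤ) + 1) := by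
    push_cast
    exact Int.add_mul_emod_self_left _ _ _
  simp only [h]

theorem cfg_of {j t : ℤ} (h0 : 0 ≤ t) (h1 : t < M) :
    ∃ t' : Fin M, ((t' : ℕ) : ℤ) = t ∧ cfg n M c j t = c t' (H906K.jx (2 * n) j) := by
  refine ⟨⟨t.toNat, by omega⟩, ?_, ?_⟩
  · show ((t.toNat : ℕ) : ℤ) = t
    omega
  · unfold cfg
    rw [dif_pos ⟨h0, h1⟩]

theorem per_cfg (n M : ℕ) (c : Fin M → Fin (2 * n + 1) → Bool) : Per n (cfg n M c) := by
  intro j t
  by_cases h : 0 ≤ t ∧ t < M
  · obtain ⟨t1, e1, e2⟩ := @cfg_of n M c j t h.1 h.2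
    obtain ⟨t2, e3, e4⟩ := @cfg_of n M c (j + (2 * n + 1)) t h.1 h.2
    have : t1 = t2 := by
      apply Fin.ext
      have := e1.trans e3.symm
      exact_mod_cast this
    subst this
    rw [e2, e4]
    have h5 := jx_add n j 1
    rw [mul_one] at h5
    rw [h5]
  · unfold cfg
    rw [dif_neg h, dif_neg h]

theorem adj_f {j t : ℤ} (h0 : 0 ≤ t) (h1 : t < M) (h : cfg n M c j t = false) :
    Adj n M c (j, t) (j + 1, t + 1) := by
  obtain ⟨t', e1, e2⟩ := @cfg_of n M c j t h0 h1
  exact Or.inl ⟨j, t', Or.inl ⟨e2 ▸ h, by rw [e1], by rw [e1]⟩⟩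

theorem adj_t {j t : ℤ} (h0 : 0 ≤ t) (h1 : t < M) (h : cfg n M c j t = true) :
    Adj n M c (j + 1, t) (j, t + 1) := by
  obtain ⟨t', e1, e2⟩ := @cfg_of n M c j t h0 h1
  exact Or.inl ⟨j, t', Or.inr ⟨e2 ▸ h, by rw [e1], by rw [e1]⟩⟩

theorem con_adj {x y : Pt} (h : Adj n M c x y) : Con n M c x y := Relation.EqvGen.rel _ _ h
theorem con_refl (x : Pt) : Con n M c x x := Relation.EqvGen.refl _
theorem con_symm {x y : Pt} (h : Con n M c x y) : Con n M c y x := Relation.EqvGen.symm _ _ h
theorem con_trans {x y z : Pt} (h : Con n M c x y) (h' : Con n M c y z) : Con n M c x z :=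
  Relation.EqvGen.trans _ _ _ h h'

/-- horizontal translation of corners -/
def ts (z : ℤ) (x : Pt) : Pt := (x.1 + z, x.2)

theorem adj_ts {x y : Pt} (z : ℤ) (h : Adj n M c x y) :
    Adj n M c (ts ((2 * n + 1) * z) x) (ts ((2 * n + 1) * z) y) := by
  rcases h with ⟨j, t, ⟨h1, rfl, rfl⟩ | ⟨h1, rfl, rfl⟩⟩ | ⟨k, i, hi, rfl, rfl⟩
  · refine Or.inl ⟨j + (2 * n + 1) * z, t, Or.inl ⟨?_, rfl, ?_⟩⟩
    · rw [jx_add]; exact h1
    · simp only [ts]
      rw [add_right_comm]
  · refine Or.inl ⟨j + (2 * n + 1) * z, t, Or.inr ⟨?_, ?_, rfl⟩⟩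
    · rw [jx_add]; exact h1
    · simp only [ts]
      rw [add_right_comm]
  · refine Or.inr ⟨k + z, i, hi, ?_, ?_⟩
    · simp only [ts]
      congr 1
      ring
    · simp only [ts]
      congr 1
      ring

theorem con_ts {x y : Pt} (z : ℤ) (h : Con n M c x y) :
    Con n M c (ts ((2 * n + 1) * z) x) (ts ((2 * n + 1) * z) y) := by
  induction h with
  | rel a b h => exact con_adj (adj_ts z h)
  | refl a => exact con_refl _
  | symm a b _ ih => exact con_symm ih
  | trans a b d _ _ ih1 ih2 => exact con_trans ih1 ih2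

/-- a connection uses finitely many corners -/
theorem con_fin {x y : Pt} (h : Con n M c x y) : ∃ R : ℤ, ∀ H : Pt → ℤ,
    (∀ a b, Adj n M c a b → |a.1| ≤ R → |b.1| ≤ R → H a = H b) → H x = H y := by
  induction h with
  | rel a b h => exact ⟨max |a.1| |b.1|, fun H hH => hH a b h (le_max_left _ _) (le_max_right _ _)⟩
  | refl a => exact ⟨0, fun H _ => rfl⟩
  | symm a b _ ih =>
    obtain ⟨R, hR⟩ := ih
    exact ⟨R, fun H hH => (hR H hH).symm⟩
  | trans a b d _ _ ih1 ih2 =>
    obtain ⟨R, hR⟩ := ih1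
    obtain ⟨R', hR'⟩ := ih2
    exact ⟨max R R', fun H hH => (hR H fun a b h h1 h2 => hH a b h (h1.trans (le_max_left _ _))
      (h2.trans (le_max_left _ _))).trans (hR' H fun a b h h1 h2 => hH a b h (h1.trans (le_max_right _ _))
      (h2.trans (le_max_right _ _)))⟩

/-- the wired corners -/
theorem con_wire (z : ℤ) {i : ℕ} (hi : i ≤ n) :
    Con n M c (z * (2 * n + 1), 0) (z * (2 * n + 1) + 2 * i, 0) := by
  induction i with
  | zero =>
    simp only [Nat.cast_zero, mul_zero, add_zero]
    exact con_refl _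
  | succ i ih =>
    refine con_trans (ih (by omega)) (con_adj (Or.inr ⟨z, i, by omega, rfl, ?_⟩))
    congr 1
    push_cast
    ring

end con

/-! ## the interface before the hitting time -/

section itf

variable {n M : ℕ} {c : Fin M → Fin (2 * n + 1) → Bool} {X : ℤ} {k : ℕ}

theorem lev (h : Hit n 0 M (cfg n M c) k X) : ∀ i ≤ k,
    (orb n 0 (cfg n M c) i).1.2 ≤ M ∧ (orb n 0 (cfg n M c) i).2.2 ≤ M := by
  intro i
  induction i with
  | zero =>
    intro _
    exact ⟨Int.natCast_nonneg M, Int.natCast_nonneg M⟩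
  | succ i ih =>
    intro hi
    obtain ⟨h1, h2⟩ := ih (by omega)
    rw [orb_succ]
    exact wk_le (orb_V n 0 _ i) (Int.natCast_nonneg M) h1 h2 (h.2 i (by omega))

theorem not_tm (hn : 1 ≤ n) (i : ℕ) : ¬ Tm n 0 (orb n 0 (cfg n M c) i) := by
  rintro ⟨z, hz⟩
  refine (t_INJ n 0 (cfg n M c) hn (per_cfg n M c) 0 i z).2 ?_
  rw [hz]
  change _ = sh ((2 * n + 1) * z) (dn (2 * n) 0)
  rw [sh_dn]

/-- one step: the left corner and the right corner -/
theorem step_con (hn : 1 ≤ n) (h : Hit n 0 M (cfg n M c) k X) {i : ℕ} (hi : i < k) :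
    Con n M c (orb n 0 (cfg n M c) i).1 (orb n 0 (cfg n M c) (i + 1)).1 ∧
    Con n M c (orb n 0 (cfg n M c) i).2 (orb n 0 (cfg n M c) (i + 1)).2 := by
  obtain ⟨hok, hv1, hv2⟩ := orb_V n 0 (cfg n M c) i
  obtain ⟨hl1, hl2⟩ := lev h i hi.le
  have hu := h.2 i hi
  have ht : ¬ Tm n 0 (orb n 0 (cfg n M c) i) := not_tm hn i
  rw [orb_succ]
  generalize orb n 0 (cfg n M c) i = s at hok hv1 hv2 hl1 hl2 hu ht ⊢
  revert hv1 hv2 hl1 hl2 hu ht
  refine Ok_cases (C := fun s => 0 ≤ s.1.2 → 0 ≤ s.2.2 → s.1.2 ≤ M → s.2.2 ≤ M → (∀ q : ℤ, s ≠ up q M) →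
    ¬ Tm n 0 s → Con n M c s.1 (wk n 0 (cfg n M c) s).1 ∧ Con n M c s.2 (wk n 0 (cfg n M c) s).2)
    ?_ ?_ ?_ ?_ hok
  · intro q t h1 _ h2 _ h3 _
    change 0 ≤ t at h1
    change t ≤ M at h2
    have h4 : t < M := lt_of_le_of_ne h2 fun e => h3 q (e ▸ rfl)
    rw [wk_of_not (Cap_up 0 q t), nxt_up]
    split_ifs with h5
    · exact ⟨con_adj (adj_f h1 h4 h5), con_refl _⟩
    · exact ⟨con_refl _, con_adj (adj_t h1 h4 (by simpa using h5))⟩
  · intro q t h1 _ h2 _ _ h6
    change 0 ≤ t at h1
    change t ≤ M at h2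
    by_cases h7 : t = 0
    · subst h7
      obtain ⟨h8, h9⟩ := not_Tm h6
      have h10 := Int.emod_add_mul_ediv q (2 * n + 1)
      set r := q % (2 * n + 1) with hr
      set z := q / (2 * n + 1) with hz
      rw [wk_dn, ← hr]
      split_ifs with h11
      · refine ⟨con_refl _, con_adj (Or.inr ⟨z, (r / 2).toNat, by omega, ?_, ?_⟩)⟩
        · change ((q, 0) : ℤ × ℤ) = _
          congr 1
          rw [mul_comm z]
          omega
        · change ((q + 1 + 1, 0) : ℤ × ℤ) = _
          congr 1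
          rw [mul_comm z]
          omega
      · refine ⟨con_symm (con_adj (Or.inr ⟨z, (r / 2).toNat, by omega, ?_, ?_⟩)), ?_⟩
        · change ((q - 1, 0) : ℤ × ℤ) = _
          congr 1
          rw [mul_comm z]
          omega
        · change ((q + 1, 0) : ℤ × ℤ) = _
          congr 1
          rw [mul_comm z]
          omega
        · change Con n M c (q, 0) (q - 1 + 1, 0)
          rw [sub_add_cancel]
          exact con_refl _
    · rw [wk_of_not (Cap_dn' h7), nxt_dn]
      have h8 : 0 ≤ t - 1 := by omega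
      have h9 : t - 1 < M := by omega
      split_ifs with h5
      · have h10 := @adj_f n M c q (t - 1) h8 h9 h5
        rw [sub_add_cancel] at h10
        refine ⟨con_symm (con_adj h10), ?_⟩
        change Con n M c (q, t) (q, t - 1 + 1)
        rw [sub_add_cancel]
        exact con_refl _
      · have h10 := @adj_t n M c q (t - 1) h8 h9 (by simpa using h5)
        rw [sub_add_cancel] at h10
        refine ⟨?_, con_symm (con_adj h10)⟩
        change Con n M c (q + 1, t) (q + 1, t - 1 + 1)
        rw [sub_add_cancel]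
        exact con_refl _
  · intro q t h1 _ _ h2 _ _
    change 0 ≤ t at h1
    change t + 1 ≤ M at h2
    rw [wk_of_not (Cap_lf 0 q t), nxt_lf]
    split_ifs with h5
    · have h10 := @adj_t n M c (q - 1) t h1 (by omega) h5
      rw [sub_add_cancel] at h10
      refine ⟨con_adj h10, ?_⟩
      change Con n M c (q, t + 1) (q - 1 + 1, t + 1)
      rw [sub_add_cancel]
      exact con_refl _
    · have h10 := @adj_f n M c (q - 1) t h1 (by omega) (by simpa using h5)
      rw [sub_add_cancel] at h10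
      refine ⟨?_, con_symm (con_adj h10)⟩
      change Con n M c (q, t) (q - 1 + 1, t)
      rw [sub_add_cancel]
      exact con_refl _
  · intro q t _ h1 h2 _ _ _
    change 0 ≤ t at h1
    change t + 1 ≤ M at h2
    rw [wk_of_not (Cap_rt 0 q t), nxt_rt]
    split_ifs with h5
    · exact ⟨con_symm (con_adj (adj_t h1 (by omega) h5)), con_refl _⟩
    · exact ⟨con_refl _, con_adj (adj_f h1 (by omega) (by simpa using h5))⟩

theorem all_con (hn : 1 ≤ n) (h : Hit n 0 M (cfg n M c) k X) : ∀ i ≤ k,
    Con n M c (2 * n, 0) (orb n 0 (cfg n M c) i).1 ∧ Con n M c (2 * n + 1, 0) (orb n 0 (cfg n M c) i).2 := by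
  intro i
  induction i with
  | zero => exact fun _ => ⟨con_refl _, con_refl _⟩
  | succ i ih =>
    intro hi
    obtain ⟨h1, h2⟩ := ih (by omega)
    obtain ⟨h3, h4⟩ := step_con hn h (show i < k by omega)
    exact ⟨con_trans h1 h3, con_trans h2 h4⟩

/-- the top level is never crossed downwards -/
theorem ne_dn_top (h : Hit n 0 M (cfg n M c) k X) (i : ℕ) (hi : i ≤ k) (q : ℤ) :
    orb n 0 (cfg n M c) i ≠ dn q M := by
  cases i with
  | zero =>
    intro e
    have h1 : (2 * n : ℤ) = q + 1 := congrArg (fun s : St => s.1.1) e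
    have h2 : (2 * n : ℤ) + 1 = q := congrArg (fun s : St => s.2.1) e
    omega
  | succ i =>
    obtain ⟨hok, hv1, hv2⟩ := orb_V n 0 (cfg n M c) i
    obtain ⟨hl1, hl2⟩ := lev h i (by omega)
    have hu := h.2 i (by omega)
    rw [orb_succ]
    generalize orb n 0 (cfg n M c) i = s at hok hv1 hv2 hl1 hl2 hu ⊢
    revert hv1 hv2 hl1 hl2 hu
    have ud : ∀ q t q' t' : ℤ, up q t ≠ dn q' t' := by
      intro q t q' t' e
      have h1 : q = q' + 1 := congrArg (fun s : St => s.1.1) e
      have h2 : q + 1 = q' := congrArg (fun s : St => s.2.1) e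
      omega
    have ld : ∀ q t q' t' : ℤ, lf q t ≠ dn q' t' := by
      intro q t q' t' e
      have h1 : q = q' + 1 := congrArg (fun s : St => s.1.1) e
      have h2 : q = q' := congrArg (fun s : St => s.2.1) e
      omega
    have rd : ∀ q t q' t' : ℤ, rt q t ≠ dn q' t' := by
      intro q t q' t' e
      have h1 : q = q' + 1 := congrArg (fun s : St => s.1.1) e
      have h2 : q = q' := congrArg (fun s : St => s.2.1) e
      omega
    refine Ok_cases (C := fun s => 0 ≤ s.1.2 → 0 ≤ s.2.2 → s.1.2 ≤ M → s.2.2 ≤ M → (∀ q : ℤ, s ≠ up q M) →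
      wk n 0 (cfg n M c) s ≠ dn q M) ?_ ?_ ?_ ?_ hok
    · intro q' t h1 _ h2 _ h3
      rw [wk_of_not (Cap_up 0 q' t), nxt_up]
      split_ifs
      · exact rd _ _ _ _
      · exact ld _ _ _ _
    · intro q' t h1 _ h2 _ _
      by_cases h7 : t = 0
      · subst h7
        rw [wk_dn]
        split_ifs
        · exact ud _ _ _ _
        · exact ud _ _ _ _
      · rw [wk_of_not (Cap_dn' h7), nxt_dn]
        split_ifs
        · exact ld _ _ _ _
        · exact rd _ _ _ _
    · intro q' t h1 _ _ h2 _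
      change t + 1 ≤ M at h2
      rw [wk_of_not (Cap_lf 0 q' t), nxt_lf]
      split_ifs
      · exact ud _ _ _ _
      · intro e
        have h3 : t = M := congrArg (fun s : St => s.1.2) e
        omega
    · intro q' t _ h1 h2 _ _
      change t + 1 ≤ M at h2
      rw [wk_of_not (Cap_rt 0 q' t), nxt_rt]
      split_ifs
      · intro e
        have h3 : t = M := congrArg (fun s : St => s.1.2) e
        omega
      · exact ud _ _ _ _

/-! ## the flows -/

theorem up_inj {q t q' t' : ℤ} (h : up q t = up q' t') : q = q' ∧ t = t' :=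
  ⟨congrArg (fun s : St => s.1.1) h, congrArg (fun s : St => s.1.2) h⟩

/-- the flow across the edges of the top level -/
theorem fl_top (h : Hit n 0 M (cfg n M c) k X) (q : ℤ) :
    fl (orb n 0 (cfg n M c)) k (q, M) (q + 1, M) = if q = 2 * n + X then 1 else 0 := by
  unfold fl
  have h1 : (Finset.range (k + 1)).filter (fun i => orb n 0 (cfg n M c) i = ((q + 1, (M : ℤ)), (q, (M : ℤ)))) = ∅ := by
    rw [Finset.filter_eq_empty_iff]
    intro i hi
    exact ne_dn_top h i (by rw [Finset.mem_range] at hi; omega) q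
  rw [h1, Finset.card_empty, Nat.cast_zero, sub_zero]
  split_ifs with h2
  · have h3 : (Finset.range (k + 1)).filter
        (fun i => orb n 0 (cfg n M c) i = ((q, (M : ℤ)), (q + 1, (M : ℤ)))) = {k} := by
      ext i
      rw [Finset.mem_filter, Finset.mem_range, Finset.mem_singleton]
      constructor
      · rintro ⟨h4, h5⟩
        by_contra h6
        exact h.2 i (by omega) q h5
      · rintro rfl
        refine ⟨by omega, ?_⟩
        rw [h.1, h2]
        rfl
    rw [h3]
    simp
  · have h3 : (Finset.range (k + 1)).filter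
        (fun i => orb n 0 (cfg n M c) i = ((q, (M : ℤ)), (q + 1, (M : ℤ)))) = ∅ := by
      rw [Finset.filter_eq_empty_iff]
      intro i hi e
      rw [Finset.mem_range] at hi
      by_cases h6 : i = k
      · subst h6
        rw [h.1] at e
        exact h2 (up_inj e).1.symm
      · exact h.2 i (by omega) q e
    rw [h3]
    simp

/-- the flow across the unpaired edges of the bottom level -/
theorem fl_start (hn : 1 ≤ n) (z : ℤ) :
    fl (orb n 0 (cfg n M c)) k (2 * n + (2 * n + 1) * z, 0) (2 * n + (2 * n + 1) * z + 1, 0) =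
      if z = 0 then 1 else 0 := by
  unfold fl
  have h1 : (Finset.range (k + 1)).filter (fun i => orb n 0 (cfg n M c) i =
      ((2 * n + (2 * n + 1) * z + 1, 0), (2 * n + (2 * n + 1) * z, 0))) = ∅ := by
    rw [Finset.filter_eq_empty_iff]
    intro i hi e
    exact not_tm hn i ⟨z, e⟩
  rw [h1, Finset.card_empty, Nat.cast_zero, sub_zero]
  have hN : (0 : ℤ) < 2 * n + 1 := by positivity
  have key : ∀ i, orb n 0 (cfg n M c) i = up (2 * n + (2 * n + 1) * z) 0 → i = 0 ∧ z = 0 := by
    intro i e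
    have h2 : i = 0 := by
      by_contra h3
      refine (t_INJ n 0 (cfg n M c) hn (per_cfg n M c) 0 i z).1 (Ne.symm h3) ?_
      rw [e]
      change _ = sh ((2 * n + 1) * z) (up (2 * n) 0)
      rw [sh_up]
    subst h2
    refine ⟨rfl, ?_⟩
    have h3 : (2 * n : ℤ) = 2 * n + (2 * n + 1) * z := (up_inj e).1
    have h4 : (2 * n + 1 : ℤ) * z = 0 := by linarith
    rcases mul_eq_zero.1 h4 with h5 | h5
    · omega
    · exact h5
  split_ifs with h2
  · subst h2
    have h3 : (Finset.range (k + 1)).filter (fun i => orb n 0 (cfg n M c) i =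
        ((((2 * n + (2 * n + 1) * 0 : ℤ), (0 : ℤ)), ((2 * n + (2 * n + 1) * 0 + 1 : ℤ), (0 : ℤ))) : St)) = {0} := by
      ext i
      rw [Finset.mem_filter, Finset.mem_range, Finset.mem_singleton]
      constructor
      · rintro ⟨h4, h5⟩
        exact (key i h5).1
      · rintro rfl
        refine ⟨by omega, ?_⟩
        rw [mul_zero, add_zero]
        rfl
    rw [h3]
    simp
  · have h3 : (Finset.range (k + 1)).filter (fun i => orb n 0 (cfg n M c) i =
        ((2 * n + (2 * n + 1) * z, 0), (2 * n + (2 * n + 1) * z + 1, 0))) = ∅ := by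
      rw [Finset.filter_eq_empty_iff]
      intro i hi e
      exact h2 (key i e).2
    rw [h3]
    simp

/-- the reflection -/
theorem card_pair (hn : 1 ≤ n) (h : Hit n 0 M (cfg n M c) k X) {q q' : ℤ}
    (h1 : wk n 0 (cfg n M c) (dn q 0) = up q' 0) (h2 : wk n 0 (cfg n M c) (dn q' 0) = up q 0)
    (h3 : q' ≠ 2 * n) :
    ((Finset.range (k + 1)).filter (fun i => orb n 0 (cfg n M c) i = up q' 0)).card =
      ((Finset.range (k + 1)).filter (fun i => orb n 0 (cfg n M c) i = dn q 0)).card := by
  have h4 : (Finset.range (k + 1)).filter (fun i => orb n 0 (cfg n M c) i = up q' 0) =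
      ((Finset.range (k + 1)).filter (fun i => orb n 0 (cfg n M c) i = dn q 0)).image Nat.succ := by
    ext i
    simp only [Finset.mem_filter, Finset.mem_range, Finset.mem_image]
    constructor
    · rintro ⟨h5, h6⟩
      cases i with
      | zero => exact absurd (up_inj h6).1.symm h3
      | succ j =>
        refine ⟨j, ⟨by omega, ?_⟩, rfl⟩
        have h7 := WW (σ := cfg n M c) (orb_V n 0 (cfg n M c) j) (not_tm hn j)
        rw [← orb_succ, h6, rev_up, h2, rev_up] at h7
        exact h7.symm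
    · rintro ⟨j, ⟨h5, h6⟩, rfl⟩
      have h7 : j ≠ k := by
        rintro rfl
        rw [h.1] at h6
        have e1 : (2 * n : ℤ) + X = q + 1 := congrArg (fun s : St => s.1.1) h6
        have e2 : (2 * n : ℤ) + X + 1 = q := congrArg (fun s : St => s.2.1) h6
        omega
      refine ⟨by omega, ?_⟩
      rw [Nat.succ_eq_add_one, orb_succ, h6, h1]
  rw [h4, Finset.card_image_of_injective _ Nat.succ_injective]

theorem fl_pair (hn : 1 ≤ n) (h : Hit n 0 M (cfg n M c) k X) (z : ℤ) {i : ℕ} (hi : i < n) :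
    fl (orb n 0 (cfg n M c)) k (z * (2 * n + 1) + 2 * i, 0) (z * (2 * n + 1) + 2 * i + 1, 0) +
      fl (orb n 0 (cfg n M c)) k (z * (2 * n + 1) + 2 * i + 1, 0) (z * (2 * n + 1) + 2 * i + 1 + 1, 0) = 0 := by
  set q : ℤ := z * (2 * n + 1) + 2 * i with hq
  have hmod : q % (2 * n + 1) = 2 * i := by
    rw [hq, add_comm, Int.add_mul_emod_self_right]
    exact Int.emod_eq_of_lt (by omega) (by omega)
  have hmod' : (q + 1) % (2 * n + 1) = 2 * i + 1 := by
    rw [hq, show z * (2 * n + 1) + 2 * i + 1 = (2 * i + 1) + z * (2 * (n : ℤ) + 1) by ring,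
      Int.add_mul_emod_self_right]
    exact Int.emod_eq_of_lt (by omega) (by omega)
  have w1 : wk n 0 (cfg n M c) (dn q 0) = up (q + 1) 0 := by
    rw [wk_dn, hmod, if_pos (by omega)]
  have w2 : wk n 0 (cfg n M c) (dn (q + 1) 0) = up q 0 := by
    rw [wk_dn, hmod', if_neg (by omega), add_sub_cancel_right]
  have n1 : q ≠ 2 * n := by
    intro e
    rw [e, Int.emod_eq_of_lt (by omega) (by omega)] at hmod
    omega
  have n2 : q + 1 ≠ 2 * n := by
    intro e
    rw [e, Int.emod_eq_of_lt (by omega) (by omega)] at hmod'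
    omega
  have c1 := card_pair hn h w1 w2 n2
  have c2 := card_pair hn h w2 w1 n1
  unfold fl
  change (((Finset.range (k + 1)).filter (fun i => orb n 0 (cfg n M c) i = up q 0)).card : ℤ) -
    (((Finset.range (k + 1)).filter (fun i => orb n 0 (cfg n M c) i = dn q 0)).card : ℤ) +
    ((((Finset.range (k + 1)).filter (fun i => orb n 0 (cfg n M c) i = up (q + 1) 0)).card : ℤ) -
    (((Finset.range (k + 1)).filter (fun i => orb n 0 (cfg n M c) i = dn (q + 1) 0)).card : ℤ)) = 0
  rw [c1, c2]
  ring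

/-! ## the stream function -/

/-- the stream function on a large rectangle: its values on the bottom level and on the top level, and its
invariance along the open paths -/
theorem stream (hF : S_FLOW) (hn : 1 ≤ n) (h : Hit n 0 M (cfg n M c) k X) (R : ℤ) :
    ∃ H : Pt → ℤ, (∀ a b, Adj n M c a b → |a.1| ≤ R → |b.1| ≤ R → H a = H b) ∧
      H (0, 0) = 0 ∧ H (2 * n + 1, 0) = 1 ∧
      ∀ p : ℤ, |p| ≤ R → H (p, M) = if p ≤ 2 * n + X then 0 else 1 := by
  have hN : (0 : ℤ) < 2 * n + 1 := by positivity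
  have hN1 : (1 : ℤ) ≤ 2 * n + 1 := hN
  -- a bound for the states
  obtain ⟨B, hB⟩ : ∃ B : ℤ, ∀ i ≤ k, |(orb n 0 (cfg n M c) i).1.1| ≤ B ∧ |(orb n 0 (cfg n M c) i).2.1| ≤ B := by
    refine ⟨∑ i ∈ Finset.range (k + 1), (|(orb n 0 (cfg n M c) i).1.1| + |(orb n 0 (cfg n M c) i).2.1|),
      fun i hi => ?_⟩
    have h1 := Finset.single_le_sum
      (f := fun i => |(orb n 0 (cfg n M c) i).1.1| + |(orb n 0 (cfg n M c) i).2.1|)
      (s := Finset.range (k + 1)) (fun j _ => by positivity) (Finset.mem_range.2 (show i < k + 1 by omega))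
    have h2 := abs_nonneg (orb n 0 (cfg n M c) i).1.1
    have h3 := abs_nonneg (orb n 0 (cfg n M c) i).2.1
    constructor <;> linarith
  obtain ⟨K, hK⟩ : ∃ K : ℕ, |R| + |B| + |2 * n + X| + 2 ≤ K :=
    ⟨(|R| + |B| + |2 * n + X| + 2).toNat, Int.self_le_toNat _⟩
  set x1 : ℤ := K * (2 * n + 1) with hx1
  have hKx : (K : ℤ) ≤ x1 := by
    rw [hx1]
    exact le_mul_of_one_le_right (Int.natCast_nonneg K) hN1
  have hR1 : |R| < x1 := by
    have := abs_nonneg B
    have := abs_nonneg (2 * n + X)
    linarith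
  have hB1 : |B| < x1 := by
    have := abs_nonneg R
    have := abs_nonneg (2 * n + X)
    linarith
  have hX1 : |2 * n + X| < x1 := by
    have := abs_nonneg R
    have := abs_nonneg B
    linarith
  have hx0 : 0 < x1 := (abs_nonneg R).trans_lt hR1
  have hM0 : (0 : ℤ) ≤ M := Int.natCast_nonneg M
  obtain ⟨H, H0, H1, H2⟩ := hF (-x1) x1 0 M (orb n 0 (cfg n M c)) k (by linarith) hM0
    (fun i _ => (orb_V n 0 (cfg n M c) i).1)
    (fun i _ => by
      rw [orb_succ]
      by_cases hc : Cap 0 (orb n 0 (cfg n M c) i)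
      · right
        rw [Cap_dn hc, tl_dn, wk_dn]
        refine ⟨fun h5 => ?_, ?_⟩
        · have h6 : (0 : ℤ) ≤ 0 - 1 := h5.2.2.1
          omega
        · split_ifs
          · rw [rev_up, tl_dn]
            intro h5
            have h6 : (0 : ℤ) ≤ 0 - 1 := h5.2.2.1
            omega
          · rw [rev_up, tl_dn]
            intro h5
            have h6 : (0 : ℤ) ≤ 0 - 1 := h5.2.2.1
            omega
      · left
        rw [wk_of_not hc]
        unfold nxt Stp
        split_ifs
        · left; rfl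
        · right; rfl)
    (by
      rw [h.1, tl_up]
      intro h5
      exact lt_irrefl _ h5.2.2.2)
    (by
      change tl (rev (up (2 * n) 0)) ∉ _
      rw [rev_up, tl_dn]
      intro h5
      have h6 : (0 : ℤ) ≤ 0 - 1 := h5.2.2.1
      omega)
  have H2' := H2 (cfg n M c) (fun i _ hi => by
    rw [orb_succ]
    by_cases hc : Cap 0 (orb n 0 (cfg n M c) i)
    · rw [Cap_dn hc, tl_dn] at hi
      have h6 : (0 : ℤ) ≤ 0 - 1 := hi.2.2.1
      omega
    · exact wk_of_not hc)
  clear H2
  -- the left side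
  have V : ∀ t : ℕ, t ≤ M → H (-x1, t) = 0 := by
    intro t
    induction t with
    | zero => intro _; exact H0
    | succ t ih =>
      intro ht
      have h5 := H1 (-x1, t) ⟨le_rfl, by simp only; linarith, by simp only; omega, by simp only; omega⟩
        (-x1, t + 1) ⟨le_rfl, by simp only; linarith, by simp only; omega, by simp only; omega⟩ (Ok_lf _ _)
      have h6 : fl (orb n 0 (cfg n M c)) k (-x1, t) (-x1, t + 1) = 0 := by
        have h7 : ∀ i ≤ k, (orb n 0 (cfg n M c) i).1.1 ≠ -x1 := by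
          intro i hi e
          have h8 := (hB i hi).1
          rw [e, abs_neg, abs_of_pos hx0] at h8
          have h9 := le_abs_self B
          linarith
        unfold fl
        rw [Finset.filter_eq_empty_iff.2, Finset.filter_eq_empty_iff.2]
        · simp
        · intro i hi e
          exact h7 i (by rw [Finset.mem_range] at hi; omega) (by rw [e])
        · intro i hi e
          exact h7 i (by rw [Finset.mem_range] at hi; omega) (by rw [e])
      rw [h6, ih (by omega)] at h5
      push_cast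
      linarith
  -- the top
  have T : ∀ j : ℕ, -x1 + j ≤ x1 → H (-x1 + j, M) = if -x1 + j ≤ 2 * n + X then 0 else 1 := by
    intro j
    induction j with
    | zero =>
      intro _
      have h5 := (abs_lt.1 hX1).1
      rw [Nat.cast_zero, add_zero, V M le_rfl, if_pos (by linarith)]
    | succ j ih =>
      intro hj
      push_cast at hj ⊢
      have h5 := H1 (-x1 + j, M) ⟨by simp only; omega, by simp only; omega, hM0, le_rfl⟩
        (-x1 + j + 1, M) ⟨by simp only; omega, by simp only; omega, hM0, le_rfl⟩ (Ok_up _ _)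
      rw [fl_top h, ih (by omega)] at h5
      rw [← add_assoc]
      have h6 : H (-x1 + j + 1, M) = (if (-x1 + j : ℤ) = 2 * n + X then 1 else 0) +
        (if (-x1 + j : ℤ) ≤ 2 * n + X then 0 else 1) := by linarith
      rw [h6]
      split_ifs <;> omega
  -- the pairs of the bottom level
  have P : ∀ (z : ℤ) (i : ℕ), i < n → -x1 ≤ z * (2 * n + 1) + 2 * i → z * (2 * n + 1) + 2 * i + 2 ≤ x1 →
      H (z * (2 * n + 1) + 2 * i + 2, 0) = H (z * (2 * n + 1) + 2 * i, 0) := by
    intro z i hi h5 h6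
    have h7 := fl_pair hn h z hi
    set q : ℤ := z * (2 * n + 1) + 2 * i with hq
    have h8 := H1 (q, 0) ⟨h5, by simp only; omega, le_rfl, hM0⟩
      (q + 1, 0) ⟨by simp only; omega, by simp only; omega, le_rfl, hM0⟩ (Ok_up _ _)
    have h9 := H1 (q + 1, 0) ⟨by simp only; omega, by simp only; omega, le_rfl, hM0⟩
      (q + 1 + 1, 0) ⟨by simp only; omega, by simp only; omega, le_rfl, hM0⟩ (Ok_up _ _)
    rw [add_assoc q 1 1, one_add_one_eq_two] at h9 h7
    linarith
  have W : ∀ (z : ℤ) (i : ℕ), i ≤ n → -x1 ≤ z * (2 * n + 1) → z * (2 * n + 1) + (2 * n + 1) ≤ x1 →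
      H (z * (2 * n + 1) + 2 * i, 0) = H (z * (2 * n + 1), 0) := by
    intro z i
    induction i with
    | zero => intro _ _ _; simp
    | succ i ih =>
      intro hi h5 h6
      rw [← ih (by omega) h5 h6, ← P z i (by omega) (by omega) (by omega)]
      congr 2
      push_cast
      ring
  have S : ∀ z : ℤ, -x1 ≤ z * (2 * n + 1) → z * (2 * n + 1) + (2 * n + 1) ≤ x1 →
      H ((z + 1) * (2 * n + 1), 0) = H (z * (2 * n + 1), 0) + if z = 0 then 1 else 0 := by
    intro z h5 h6
    have h7 := fl_start (c := c) (k := k) hn z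
    have e1 : (2 * n + (2 * n + 1) * z : ℤ) = z * (2 * n + 1) + 2 * n := by ring
    rw [e1] at h7
    have h8 := H1 (z * (2 * n + 1) + 2 * n, 0) ⟨by simp only; omega, by simp only; omega, le_rfl, hM0⟩
      (z * (2 * n + 1) + 2 * n + 1, 0) ⟨by simp only; omega, by simp only; omega, le_rfl, hM0⟩ (Ok_up _ _)
    rw [h7, W z n le_rfl h5 h6] at h8
    have e2 : (z + 1) * (2 * n + 1) = z * (2 * (n : ℤ) + 1) + 2 * n + 1 := by ring
    rw [e2]
    linarith
  have Z : ∀ j : ℕ, j ≤ K → H ((-K + j) * (2 * n + 1), 0) = 0 := by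
    intro j
    induction j with
    | zero =>
      intro _
      rw [Nat.cast_zero, add_zero, neg_mul, ← hx1]
      exact H0
    | succ j ih =>
      intro hj
      have h5 := S (-K + j) (by
          rw [hx1, ← neg_mul]
          exact mul_le_mul_of_nonneg_right (by omega) hN.le) (by
          have h6 : (-K + j : ℤ) * (2 * n + 1) + (2 * n + 1) = (-K + j + 1) * (2 * n + 1) := by ring
          rw [h6]
          have h7 : (-K + j + 1 : ℤ) * (2 * n + 1) ≤ 0 :=
            mul_nonpos_of_nonpos_of_nonneg (by omega) hN.le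
          linarith)
      rw [ih (by omega), if_neg (by omega), add_zero] at h5
      push_cast
      rw [← add_assoc]
      exact h5
  have Z0 : H (0, 0) = 0 := by
    have h5 := Z K le_rfl
    rw [neg_add_cancel, zero_mul] at h5
    exact h5
  have hK1 : (1 : ℤ) ≤ K := by
    have := abs_nonneg R
    have := abs_nonneg B
    have := abs_nonneg (2 * n + X)
    linarith
  refine ⟨H, ?_, Z0, ?_, ?_⟩
  · intro a b hab ha hb
    have ha' := abs_le.1 (ha.trans ((le_abs_self R).trans hR1.le))
    have hb' := abs_le.1 (hb.trans ((le_abs_self R).trans hR1.le))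
    rcases hab with ⟨j, t, ⟨h1, rfl, rfl⟩ | ⟨h1, rfl, rfl⟩⟩ | ⟨z, i, hi, rfl, rfl⟩
    · have ht := t.2
      obtain ⟨t', e1, e2⟩ := @cfg_of n M c j t (by omega) (by omega)
      have e3 : t' = t := by
        apply Fin.ext
        exact_mod_cast e1
      rw [e3] at e2
      refine H2' _ ⟨ha'.1, ha'.2, by simp only; omega, by simp only; omega⟩ _
        ⟨hb'.1, hb'.2, by simp only; omega, by simp only; omega⟩ (Or.inl ⟨rfl, ?_⟩)
      rw [e2]
      exact h1
    · have ht := t.2
      obtain ⟨t', e1, e2⟩ := @cfg_of n M c j t (by omega) (by omega)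
      have e3 : t' = t := by
        apply Fin.ext
        exact_mod_cast e1
      rw [e3] at e2
      refine H2' _ ⟨ha'.1, ha'.2, by simp only; omega, by simp only; omega⟩ _
        ⟨hb'.1, hb'.2, by simp only; omega, by simp only; omega⟩ (Or.inr (Or.inr (Or.inl ⟨?_, ?_⟩)))
      · rw [Prod.mk_add_mk]
        congr 1
        ring
      · simp only
        rw [e2]
        exact h1
    · exact (P z i hi ha'.1 hb'.2).symm
  · have h5 := S 0 (by rw [zero_mul]; linarith) (by
      rw [zero_mul, zero_add, hx1]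
      exact le_mul_of_one_le_left hN.le hK1)
    rw [zero_add, one_mul, zero_mul, Z0, if_pos rfl, zero_add] at h5
    exact h5
  · intro p hp
    have hp' := abs_le.1 (hp.trans ((le_abs_self R).trans hR1.le))
    have h5 := T (p + x1).toNat (by omega)
    have h6 : -x1 + ((p + x1).toNat : ℤ) = p := by omega
    rw [h6] at h5
    exact h5

/-- **CRS** -/
theorem t_CRS : S_FLOW → S_VAL → S_HIT → S_CRS := by
  intro hF _ hH n M c hn
  obtain ⟨k, h⟩ := hH n 0 M (cfg n M c) hn (per_cfg n M c) (Int.natCast_nonneg M)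
  change Hit n 0 M (cfg n M c) k (X n M c) at h
  obtain ⟨h1, h2⟩ := all_con hn h k le_rfl
  rw [h.1] at h1 h2
  change Con n M c (2 * n, 0) (2 * n + X n M c, M) at h1
  change Con n M c (2 * n + 1, 0) (2 * n + X n M c + 1, M) at h2
  refine ⟨?_, ?_, ?_⟩
  · have h3 := con_ts (-1) h2
    have e1 : ts ((2 * n + 1) * (-1)) (2 * n + 1, 0) = (0, 0) := by
      simp only [ts]
      congr 1
      ring
    have e2 : ts ((2 * n + 1) * (-1)) (2 * n + X n M c + 1, (M : ℤ)) = (X n M c, (M : ℤ)) := by
      simp only [ts]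
      congr 1
      ring
    rw [e1, e2] at h3
    exact h3
  · have h3 := con_wire (c := c) 0 (le_refl n)
    rw [zero_mul, zero_add] at h3
    rw [add_comm]
    exact con_trans h3 h1
  · intro p hp
    obtain ⟨R, hR⟩ := con_fin hp
    have hp' := con_ts 1 hp
    obtain ⟨R', hR'⟩ := con_fin hp'
    obtain ⟨H, a1, a2, a3, a4⟩ := stream hF hn h (max (max R R') (max |p| |p + (2 * n + 1)|))
    have b1 := hR H fun a b hab ha hb => a1 a b hab (ha.trans ((le_max_left _ _).trans (le_max_left _ _)))
      (hb.trans ((le_max_left _ _).trans (le_max_left _ _)))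
    have b2 := hR' H fun a b hab ha hb => a1 a b hab (ha.trans ((le_max_right _ _).trans (le_max_left _ _)))
      (hb.trans ((le_max_right _ _).trans (le_max_left _ _)))
    simp only [ts, mul_one, zero_add] at b2
    rw [a2, a4 p ((le_max_left _ _).trans (le_max_right _ _))] at b1
    rw [a3, a4 _ ((le_max_right _ _).trans (le_max_right _ _))] at b2
    constructor
    · by_contra h5
      rw [if_pos (by omega)] at b2
      exact one_ne_zero b2
    · by_contra h5
      rw [if_neg (by omega)] at b1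
      exact zero_ne_one b1

end itf

end Pool.Agent.Y256.KW
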